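import Mathlib

namespace Pool.Agent.Results.MP_d6b04a_al.Yes

variable {L : Type} [CompleteLattice L]

/-- Compact elements. -/
def Compact (p : L) : Prop :=
  ∀ D : Set L, D.Nonempty → DirectedOn (· ≤ ·) D → p ≤ sSup D → ∃ d ∈ D, p ≤ d

/-- Points, that is completely join-irreducible elements. -/
def Point (p : L) : Prop := ∃ q, IsGreatest {x | x < p} q

/-- Refinement of finite sets. -/
def Refines (X Y : Finset L) : Prop := ∀ x ∈ X, ∃ y ∈ Y, x ≤ y

/-- Minimal join-covers. -/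
def MinimalCover (p : L) (E : Finset L) : Prop :=
  p ≤ E.sup id ∧ ∀ X : Finset L, p ≤ X.sup id → Refines X E → E ⊆ X

open Classical in
lemma step [IsModularLattice L] (hs : ∀ x : L, ∃ S : Set L, (∀ s ∈ S, Point s) ∧ sSup S = x)
    {p : L} (hp : Compact p) (e N : L) (h : p ≤ e ⊔ N) : ∃ X : Finset L, (∀ x ∈ X, x ≤ e) ∧
      p ≤ X.sup id ⊔ N ∧ ∀ x ∈ X, ∃ y, (∀ z < x, z ≤ y) ∧ ¬ p ≤ y ⊔ (X.erase x).sup id ⊔ N := by
  obtain ⟨S, hS, hq⟩ := hs (e ⊓ (p ⊔ N))
  have h1 : p ≤ sSup S ⊔ N := by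
    rw [hq, sup_comm, ← sup_inf_assoc_of_le e le_sup_right]
    exact le_inf (sup_comm e N ▸ h) le_sup_left
  have hex : ∃ n, ∃ X : Finset L, X.card = n ∧ ↑X ⊆ S ∧ p ≤ X.sup id ⊔ N := by
    obtain ⟨_, ⟨X, hX, rfl⟩, h⟩ := hp ((fun X : Finset L => X.sup id ⊔ N) '' {X | ↑X ⊆ S})
      ⟨_, ∅, by simp, rfl⟩ (by
        rintro _ ⟨X, hX, rfl⟩ _ ⟨Y, hY, rfl⟩
        exact ⟨_, ⟨X ∪ Y, by simpa using ⟨hX, hY⟩, rfl⟩,
          sup_le_sup_right (Finset.sup_mono Finset.subset_union_left) _,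
          sup_le_sup_right (Finset.sup_mono Finset.subset_union_right) _⟩)
      (h1.trans (sup_le (sSup_le fun s hs => le_sSup_of_le ⟨{s}, by simpa using hs, rfl⟩ (by simp))
        (le_sSup_of_le ⟨∅, by simp, rfl⟩ (by simp))))
    exact ⟨_, X, rfl, hX, h⟩
  obtain ⟨X, hc, hX, h2⟩ := Nat.find_spec hex
  have hle : ∀ x ∈ X, x ≤ e ⊓ (p ⊔ N) := fun x hx => hq ▸ le_sSup (hX hx)
  refine ⟨X, fun x hx => (hle x hx).trans inf_le_left, h2, fun x hx => ?_⟩
  obtain ⟨y, hy, hy'⟩ := hS x (hX hx)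
  refine ⟨y, fun z hz => hy' hz, fun h3 => ?_⟩
  rw [sup_assoc] at h3
  have h4 : x ≤ y ⊔ ((X.erase x).sup id ⊔ N) := (hle x hx).trans (inf_le_right.trans
    (sup_le h3 (le_sup_right.trans le_sup_right)))
  have h5 : x ≤ (X.erase x).sup id ⊔ N := by
    by_contra h5
    have h6 : ((X.erase x).sup id ⊔ N) ⊓ x ≤ y :=
      hy' (lt_of_le_of_ne inf_le_right fun e => h5 (inf_eq_right.1 e))
    have h7 := sup_inf_assoc_of_le ((X.erase x).sup id ⊔ N) hy.le
    rw [inf_eq_right.2 h4, sup_eq_left.2 h6] at h7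
    exact hy.ne' h7
  refine Nat.find_min hex (m := (X.erase x).card) (hc ▸ Finset.card_erase_lt_of_mem hx)
    ⟨_, rfl, (Finset.coe_subset.2 (Finset.erase_subset _ _)).trans hX, h2.trans (sup_le
      (Finset.sup_le fun z hz => ?_) le_sup_right)⟩
  by_cases e : z = x
  · exact e ▸ h5
  · exact le_sup_of_le_left (Finset.le_sup (f := id) (Finset.mem_erase.2 ⟨e, hz⟩))

theorem result (L : Type) [CompleteLattice L] [IsModularLattice L]
    (hs : ∀ x : L, ∃ S : Set L, (∀ s ∈ S, Point s) ∧ sSup S = x) (p : L) (hp : Compact p)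
    (E : Finset L) (hE : p ≤ E.sup id) : ∃ F : Finset L, MinimalCover p F ∧ Refines F E := by
  classical
  have key : ∀ (E : Finset L) (N : L), p ≤ E.sup id ⊔ N → ∃ F : Finset L, Refines F E ∧
      p ≤ F.sup id ⊔ N ∧ ∀ x ∈ F, ∃ y, (∀ z < x, z ≤ y) ∧ ¬ p ≤ y ⊔ (F.erase x).sup id ⊔ N := by
    intro E
    induction E using Finset.induction_on with
    | empty => exact fun N h => ⟨∅, by simp [Refines], h, by simp⟩
    | insert e E _ ih =>
      intro N h
      rw [Finset.sup_insert, sup_assoc] at h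
      obtain ⟨X, h1, h2, h3⟩ := step hs hp e _ h
      obtain ⟨F, h4, h5, h6⟩ := ih (X.sup id ⊔ N) (by rwa [sup_left_comm])
      have hF : F.sup id ≤ E.sup id := Finset.sup_le fun x hx =>
        let ⟨y, hy, h⟩ := h4 x hx; h.trans (Finset.le_sup (f := id) hy)
      refine ⟨X ∪ F, fun x hx => ?_, by rwa [Finset.sup_union, sup_assoc, sup_left_comm],
        fun x hx => ?_⟩
      · rcases Finset.mem_union.1 hx with h | h
        · exact ⟨e, Finset.mem_insert_self _ _, h1 x h⟩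
        · exact let ⟨y, hy, h⟩ := h4 x h; ⟨y, Finset.mem_insert_of_mem hy, h⟩
      · rw [Finset.erase_union_distrib, Finset.sup_union]
        rcases Finset.mem_union.1 hx with h | h
        · obtain ⟨y, h7, h8⟩ := h3 x h
          refine ⟨y, h7, fun t => h8 (t.trans ?_)⟩
          have := (Finset.sup_mono (f := id) (Finset.erase_subset x F)).trans hF
          order
        · obtain ⟨y, h7, h8⟩ := h6 x h
          refine ⟨y, h7, fun t => h8 (t.trans ?_)⟩
          have := Finset.sup_mono (f := id) (Finset.erase_subset x X)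
          order
  obtain ⟨F, h1, h2, h3⟩ := key E ⊥ (by simpa using hE)
  refine ⟨F, ⟨by simpa using h2, fun X hX hr x hx => by_contra fun hn => ?_⟩, h1⟩
  obtain ⟨y, h4, h5⟩ := h3 x hx
  refine h5 (hX.trans (le_sup_of_le_left (Finset.sup_le fun z hz => ?_)))
  obtain ⟨w, hw, hzw⟩ := hr z hz
  by_cases e : w = x
  · exact le_sup_of_le_left (h4 z (lt_of_le_of_ne (e ▸ hzw) fun t => hn (t ▸ hz)))
  · exact le_sup_of_le_right (hzw.trans (Finset.le_sup (f := id) (Finset.mem_erase.2 ⟨e, hw⟩)))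

end Pool.Agent.Results.MP_d6b04a_al.Yes
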